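import Pool.Agent.H80.AN.TargetsA

/-! Board allh, row ONB (helper79). -/

set_option autoImplicit false

namespace Pool.Agent.H79.ALLH

open MeasureTheory Metric Set Filter Topology Pool.Agent.H87.SN Pool.Agent.H22.AN
open scoped RealInnerProductSpace

section

variable {W : Type} [AddCommGroup W] [Module ℝ W] (Q : W → ℝ)

lemma q_smul (hQ : ∀ (v w : W) (a b : ℝ), Q (a • v + b • w) ≤ 2 * a ^ 2 * Q v + 2 * b ^ 2 * Q w)
    (a : ℝ) (v : W) : Q (a • v) ≤ 2 * a ^ 2 * Q v := by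
  have h := hQ v v a 0
  rw [zero_smul, add_zero] at h
  linarith [h]

lemma q_sum (hQ0 : ∀ v, 0 ≤ Q v)
    (hQ : ∀ (v w : W) (a b : ℝ), Q (a • v + b • w) ≤ 2 * a ^ 2 * Q v + 2 * b ^ 2 * Q w)
    (B : ℝ) : ∀ (k : ℕ) (c : Fin k → ℝ) (v : Fin k → W), (∀ i, |c i| ≤ 1) →
      (∀ i, Q (v i) ≤ B) → Q (∑ i, c i • v i) ≤ (2 ^ (k + 1) - 2) * B := by
  intro k
  induction k with
  | zero =>
    intro c v _ _
    have h := hQ (0 : W) 0 0 0
    simp only [smul_zero, add_zero] at h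
    have h0 : Q 0 ≤ 0 := by linarith [h]
    rw [Finset.univ_eq_empty, Finset.sum_empty]
    norm_num
    exact h0
  | succ k ih =>
    intro c v hc hv
    rw [Fin.sum_univ_castSucc]
    have h1 := ih (fun i => c i.castSucc) (fun i => v i.castSucc) (fun i => hc _) (fun i => hv _)
    have h2 := hQ (∑ i : Fin k, c i.castSucc • v i.castSucc) (v (Fin.last k)) 1 (c (Fin.last k))
    rw [one_smul] at h2
    have h3 : c (Fin.last k) ^ 2 ≤ 1 := by
      rw [← sq_abs]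
      exact pow_le_one₀ (abs_nonneg _) (hc _)
    have h4 : c (Fin.last k) ^ 2 * Q (v (Fin.last k)) ≤ 1 * B :=
      mul_le_mul h3 (hv _) (hQ0 _) (by norm_num)
    have h7 : ((2 : ℝ) ^ (k + 1 + 1) - 2) * B = 2 * ((2 ^ (k + 1) - 2) * B) + 2 * B := by ring
    rw [h7]
    linarith

end

/-- one more vector -/
lemma snoc_on {d k : ℕ} (v : Fin k → V d) (hv : Orthonormal ℝ v) (u : V d) (hu : ‖u‖ = 1)
    (hvu : ∀ i, ⟪v i, u⟫ = 0) : Orthonormal ℝ (Fin.snoc v u : Fin (k + 1) → V d) := by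
  rw [orthonormal_iff_ite] at hv ⊢
  intro i j
  induction i using Fin.lastCases with
  | last =>
    induction j using Fin.lastCases with
    | last =>
      rw [Fin.snoc_last, real_inner_self_eq_norm_sq, hu, if_pos rfl]
      norm_num
    | cast j =>
      rw [Fin.snoc_last, Fin.snoc_castSucc, real_inner_comm, hvu, if_neg]
      exact (Fin.castSucc_lt_last j).ne'
  | cast i =>
    induction j using Fin.lastCases with
    | last =>
      rw [Fin.snoc_last, Fin.snoc_castSucc, hvu, if_neg]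
      exact (Fin.castSucc_lt_last i).ne
    | cast j =>
      rw [Fin.snoc_castSucc, Fin.snoc_castSucc, hv]
      simp only [Fin.castSucc_inj]

/-- orthonormal families -/
lemma fam (d : ℕ) (r₁ : ℝ) (hr : 0 < r₁) (k : ℕ) : k ≤ d → ∃ C : ℝ, 0 ≤ C ∧
    ∀ (Q : V d → ℝ) (S : Set (V d)) (p : V d) (A : ℝ), (∀ v, 0 ≤ Q v) →
    (∀ (v w : V d) (a b : ℝ), Q (a • v + b • w) ≤ 2 * a ^ 2 * Q v + 2 * b ^ 2 * Q w) →
    (∀ y ∈ S, Q (y - p) ≤ A ∧ ‖y - p‖ ≤ 1) →
    (∀ k : ℕ, k < d → ∀ v : Fin k → V d, Orthonormal ℝ v →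
      ∃ y ∈ S, r₁ ≤ ‖(y - p) - ∑ i, ⟪v i, y - p⟫ • v i‖) →
    ∃ v : Fin k → V d, Orthonormal ℝ v ∧ ∀ i, Q (v i) ≤ C * A := by
  induction k with
  | zero =>
    intro _
    refine ⟨0, le_rfl, fun Q S p A _ _ _ _ => ⟨fun i => i.elim0, ?_, fun i => i.elim0⟩⟩
    rw [orthonormal_iff_ite]
    exact fun i => i.elim0
  | succ k ih =>
    intro hk
    obtain ⟨C, hC, h⟩ := ih (by omega)
    refine ⟨C + 2 * (r₁ ^ 2)⁻¹ * (2 + 2 * (2 ^ (k + 1)) * C), by positivity, ?_⟩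
    intro Q S p A hQ0 hQ hS hsp
    obtain ⟨v, hv, hvQ⟩ := h Q S p A hQ0 hQ hS hsp
    obtain ⟨y, hyS, hy⟩ := hsp k (by omega) v hv
    obtain ⟨hyQ, hy1⟩ := hS y hyS
    have hA : 0 ≤ A := (hQ0 _).trans hyQ
    set w := (y - p) - ∑ i, ⟪v i, y - p⟫ • v i with hw
    have hw0 : 0 < ‖w‖ := lt_of_lt_of_le hr hy
    have hsum : Q (∑ i, ⟪v i, y - p⟫ • v i) ≤ 2 ^ (k + 1) * (C * A) := by
      refine (q_sum Q hQ0 hQ (C * A) k (fun i => ⟪v i, y - p⟫) v (fun i => ?_) hvQ).trans ?_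
      · refine (abs_real_inner_le_norm _ _).trans ?_
        rw [hv.1 i, one_mul]
        exact hy1
      · refine mul_le_mul_of_nonneg_right (by linarith) (by positivity)
    have hQw : Q w ≤ 2 * A + 2 * (2 ^ (k + 1) * (C * A)) := by
      have h1 := hQ (y - p) (∑ i, ⟪v i, y - p⟫ • v i) 1 (-1)
      rw [one_smul, neg_one_smul, ← sub_eq_add_neg, ← hw] at h1
      linarith
    have hQu : Q (‖w‖⁻¹ • w) ≤ 2 * (r₁ ^ 2)⁻¹ * (2 * A + 2 * (2 ^ (k + 1) * (C * A))) := by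
      refine (q_smul Q hQ _ _).trans ?_
      have h2 : (‖w‖⁻¹) ^ 2 ≤ (r₁ ^ 2)⁻¹ := by
        rw [inv_pow]
        exact inv_anti₀ (by positivity) (pow_le_pow_left₀ hr.le hy 2)
      have h3 : (‖w‖⁻¹) ^ 2 * Q w ≤ (r₁ ^ 2)⁻¹ * (2 * A + 2 * (2 ^ (k + 1) * (C * A))) :=
        mul_le_mul h2 hQw (hQ0 _) (by positivity)
      linarith
    refine ⟨Fin.snoc v (‖w‖⁻¹ • w), snoc_on v hv _ ?_ ?_, ?_⟩
    · rw [norm_smul, norm_inv, norm_norm, inv_mul_cancel₀ hw0.ne']
    · intro i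
      rw [real_inner_smul_right, hw, inner_sub_right, inner_sum]
      have h3 : ∑ j, ⟪v i, ⟪v j, y - p⟫ • v j⟫ = ⟪v i, y - p⟫ := by
        rw [Finset.sum_eq_single i]
        · rw [real_inner_smul_right, (orthonormal_iff_ite.1 hv), if_pos rfl, mul_one]
        · intro j _ hj
          rw [real_inner_smul_right, (orthonormal_iff_ite.1 hv), if_neg (Ne.symm hj), mul_zero]
        · intro h4
          exact absurd (Finset.mem_univ _) h4
      rw [h3, sub_self, mul_zero]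
    · intro i
      induction i using Fin.lastCases with
      | last =>
        rw [Fin.snoc_last]
        refine hQu.trans (le_of_sub_nonneg ?_)
        have : (C + 2 * (r₁ ^ 2)⁻¹ * (2 + 2 * (2 ^ (k + 1)) * C)) * A -
            2 * (r₁ ^ 2)⁻¹ * (2 * A + 2 * (2 ^ (k + 1) * (C * A))) = C * A := by ring
        rw [this]
        positivity
      | cast i =>
        rw [Fin.snoc_castSucc]
        refine (hvQ i).trans (mul_le_mul_of_nonneg_right ?_ hA)
        have : 0 ≤ 2 * (r₁ ^ 2)⁻¹ * (2 + 2 * (2 ^ (k + 1)) * C) := by positivity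
        linarith

theorem pf_ONB : T_ONB := by
  intro d r₁ hr
  obtain ⟨C, hC, h⟩ := fam d r₁ hr d le_rfl
  refine ⟨C, hC, fun Q S p A hQ0 hQ hS hsp => ?_⟩
  obtain ⟨v, hv, hvQ⟩ := h Q S p A hQ0 hQ hS hsp
  let v' : Fin (d + 2) → V d := Fin.cons 0 (Fin.cons 0 v)
  have hv' : ∀ i : Fin d, v' i.succ.succ = v i := by
    intro i
    show (Fin.cons 0 (Fin.cons 0 v : Fin (d + 1) → V d) : Fin (d + 2) → V d) i.succ.succ = v i
    rw [Fin.cons_succ, Fin.cons_succ]
  let s : Set (Fin (d + 2)) := range fun i : Fin d => i.succ.succ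
  have hon : Orthonormal ℝ (s.restrict v') := by
    rw [orthonormal_iff_ite]
    rintro ⟨x, hx⟩ ⟨y, hy⟩
    obtain ⟨i, hi⟩ := hx
    obtain ⟨j, hj⟩ := hy
    have hi' : i.succ.succ = x := hi
    have hj' : j.succ.succ = y := hj
    have e1 : s.restrict v' ⟨x, ⟨i, hi⟩⟩ = v i := by
      show v' x = v i
      rw [← hi', hv']
    have e2 : s.restrict v' ⟨y, ⟨j, hj⟩⟩ = v j := by
      show v' y = v j
      rw [← hj', hv']
    rw [e1, e2, orthonormal_iff_ite.1 hv i j]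
    by_cases hij : i = j
    · rw [if_pos hij, if_pos]
      exact Subtype.ext (show x = y from hi'.symm.trans ((congrArg (fun t => t.succ.succ) hij).trans hj'))
    · rw [if_neg hij, if_neg]
      intro h1
      apply hij
      have h2 : x = y := congrArg Subtype.val h1
      rw [← hi', ← hj'] at h2
      exact Fin.succ_injective _ (Fin.succ_injective _ h2)
  obtain ⟨b, hb⟩ := hon.exists_orthonormalBasis_extension_of_card_eq (by simp)
  refine ⟨b.repr.symm, fun i => ?_⟩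
  have h1 : b.repr.symm (bv i.succ.succ) = v i := by
    rw [← hv' i, ← hb i.succ.succ ⟨i, rfl⟩]
    exact b.repr_symm_single i.succ.succ
  rw [h1]
  exact hvQ i

end Pool.Agent.H79.ALLH
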